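import Pool.Agent.Lib_MP_a338c1_f.Main
import Pool.Agent.Lib_MP_a338c1_g.FarMain

/-!
# Rook domination on the triangular board: the exact value

`board n` is the triangular board with `n` rows: the triples of natural numbers `(a, b, c)` with
`a + b + c = n - 1` (written `a + b + c + 1 = n`).  `gamma n` is the least number of rooks that
cover the board.  We show `gamma n = ⌊(11 n + 18) / 24⌋ = ⌈(11 n - 5) / 24⌉` for every `n ≥ 1`.

The upper bound is by explicit coverings for `n = 24 j + 7` and `n = 24 j + 20` and by extra rooks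
at a corner.  The lower bound is proved in `Pool.Agent.Lib_MP_a338c1_f` and
`Pool.Agent.Lib_MP_a338c1_g`.
-/

namespace Pool.Agent.Results.MP_a338c1_co.ExactValue

/-- The cells of the triangular board with `n` rows: triples `(a, b, c)` of natural numbers with
`a + b + c = n - 1`. -/
def board (n : ℕ) : Finset (ℕ × ℕ × ℕ) :=
  (Finset.range n ×ˢ Finset.range n ×ˢ Finset.range n).filter
    (fun p => p.1 + p.2.1 + p.2.2 + 1 = n)

/-- `S` is a set of rooks on the board with `n` rows, and every cell agrees in at least one of the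
three coordinates with some rook of `S`. -/
def IsCovering (n : ℕ) (S : Finset (ℕ × ℕ × ℕ)) : Prop :=
  S ⊆ board n ∧
    ∀ p ∈ board n, ∃ q ∈ S, p.1 = q.1 ∨ p.2.1 = q.2.1 ∨ p.2.2 = q.2.2

/-- The domination number: the least size of a covering set of rooks. -/
noncomputable def gamma (n : ℕ) : ℕ :=
  sInf {k : ℕ | ∃ S : Finset (ℕ × ℕ × ℕ), IsCovering n S ∧ S.card = k}

theorem mem_board {n : ℕ} {p : ℕ × ℕ × ℕ} : p ∈ board n ↔ p.1 + p.2.1 + p.2.2 + 1 = n := by
  simp only [board, Finset.mem_filter, Finset.mem_product, Finset.mem_range]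
  constructor
  · rintro ⟨-, h⟩
    exact h
  · intro h
    exact ⟨⟨by omega, by omega, by omega⟩, h⟩

theorem gamma_le {n k : ℕ} (S : Finset (ℕ × ℕ × ℕ)) (hS : IsCovering n S) (hk : S.card ≤ k) :
    gamma n ≤ k :=
  le_trans (Nat.sInf_le ⟨S, hS, rfl⟩) hk

theorem board_covering (n : ℕ) : IsCovering n (board n) :=
  ⟨Finset.Subset.refl _, fun p hp => ⟨p, hp, Or.inl rfl⟩⟩

theorem exists_min (n : ℕ) : ∃ S : Finset (ℕ × ℕ × ℕ), IsCovering n S ∧ S.card = gamma n :=
  Nat.sInf_mem (s := {k : ℕ | ∃ S : Finset (ℕ × ℕ × ℕ), IsCovering n S ∧ S.card = k})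
    ⟨_, board n, board_covering n, rfl⟩

/-- Placing an extra rook at a corner. -/
theorem gamma_step (n : ℕ) : gamma (n + 2) ≤ gamma n + 1 := by
  obtain ⟨S, ⟨hS1, hS2⟩, hc⟩ := exists_min n
  classical
  refine gamma_le (insert (n + 1, 0, 0) (S.image fun q => (q.1, q.2.1 + 1, q.2.2 + 1)))
    ⟨?_, ?_⟩ ?_
  · intro p hp
    rw [Finset.mem_insert, Finset.mem_image] at hp
    rw [mem_board]
    rcases hp with rfl | ⟨q, hq, rfl⟩
    · simp
    · have := mem_board.1 (hS1 hq)
      simp only
      omega
  · intro p hp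
    rw [mem_board] at hp
    by_cases h1 : p.2.1 = 0
    · exact ⟨_, Finset.mem_insert_self _ _, Or.inr (Or.inl (by simpa using h1))⟩
    by_cases h2 : p.2.2 = 0
    · exact ⟨_, Finset.mem_insert_self _ _, Or.inr (Or.inr (by simpa using h2))⟩
    obtain ⟨q, hq, hq'⟩ := hS2 (p.1, p.2.1 - 1, p.2.2 - 1) (mem_board.2 (by simp only; omega))
    refine ⟨(q.1, q.2.1 + 1, q.2.2 + 1),
      Finset.mem_insert_of_mem (Finset.mem_image_of_mem _ hq), ?_⟩
    simp only at hq' ⊢
    omega
  · refine le_trans (Finset.card_insert_le _ _) ?_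
    have := Finset.card_image_le (s := S) (f := fun q : ℕ × ℕ × ℕ => (q.1, q.2.1 + 1, q.2.2 + 1))
    omega

/-- The `2 t + 1` rooks with doubled coordinates. `e` is the offset of the third coordinate. -/
def typical (t e : ℕ) : Finset (ℕ × ℕ × ℕ) :=
  (Finset.range (t + 1)).image (fun i => (2 * i, 2 * (t + i), 2 * (2 * t - 2 * i) + e)) ∪
    (Finset.range t).image (fun i => (2 * (t + 1 + i), 2 * i, 2 * (2 * t - 1 - 2 * i) + e))

theorem typical_card (t e : ℕ) : (typical t e).card ≤ 2 * t + 1 := by
  refine le_trans (Finset.card_union_le _ _) ?_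
  have h1 := Finset.card_image_le (s := Finset.range (t + 1))
    (f := fun i : ℕ => (2 * i, 2 * (t + i), 2 * (2 * t - 2 * i) + e))
  have h2 := Finset.card_image_le (s := Finset.range t)
    (f := fun i : ℕ => (2 * (t + 1 + i), 2 * i, 2 * (2 * t - 1 - 2 * i) + e))
  rw [Finset.card_range] at h1 h2
  omega

theorem typical_mem {t e : ℕ} {p : ℕ × ℕ × ℕ} (hp : p ∈ typical t e) :
    p.1 + p.2.1 + p.2.2 = 6 * t + e := by
  rw [typical, Finset.mem_union, Finset.mem_image, Finset.mem_image] at hp
  rcases hp with ⟨i, hi, rfl⟩ | ⟨i, hi, rfl⟩ <;> rw [Finset.mem_range] at hi <;> simp only <;> omega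

theorem typical_fst {t e x : ℕ} (h0 : x % 2 = 0) (h : x < 4 * t + 2) :
    ∃ q ∈ typical t e, x = q.1 := by
  rw [typical]
  by_cases hx : x ≤ 2 * t
  · refine ⟨_, Finset.mem_union_left _ (Finset.mem_image_of_mem _
      (Finset.mem_range.2 (show x / 2 < t + 1 by omega))), ?_⟩
    simp only
    omega
  · refine ⟨_, Finset.mem_union_right _ (Finset.mem_image_of_mem _
      (Finset.mem_range.2 (show x / 2 - (t + 1) < t by omega))), ?_⟩
    simp only
    omega

theorem typical_snd {t e x : ℕ} (h0 : x % 2 = 0) (h : x < 4 * t + 2) :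
    ∃ q ∈ typical t e, x = q.2.1 := by
  rw [typical]
  by_cases hx : x < 2 * t
  · refine ⟨_, Finset.mem_union_right _ (Finset.mem_image_of_mem _
      (Finset.mem_range.2 (show x / 2 < t by omega))), ?_⟩
    simp only
    omega
  · refine ⟨_, Finset.mem_union_left _ (Finset.mem_image_of_mem _
      (Finset.mem_range.2 (show x / 2 - t < t + 1 by omega))), ?_⟩
    simp only
    omega

theorem typical_trd {t e x : ℕ} (he : e ≤ x) (h0 : (x - e) % 2 = 0) (h : x < 4 * t + 2 + e) :
    ∃ q ∈ typical t e, x = q.2.2 := by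
  rw [typical]
  by_cases hx : (x - e) % 4 = 0
  · refine ⟨_, Finset.mem_union_left _ (Finset.mem_image_of_mem _
      (Finset.mem_range.2 (show t - (x - e) / 4 < t + 1 by omega))), ?_⟩
    simp only
    omega
  · refine ⟨_, Finset.mem_union_right _ (Finset.mem_image_of_mem _
      (Finset.mem_range.2 (show t - 1 - (x - e - 2) / 4 < t by omega))), ?_⟩
    simp only
    omega

/-- The construction for `n = 24 j + 7`. -/
theorem gamma_odd (j : ℕ) : gamma (24 * j + 7) ≤ 11 * j + 3 := by
  classical
  set f1 : ℕ → ℕ × ℕ × ℕ := fun i => (4 * i + 1, 4 * i + 3, 24 * j + 6 - (8 * i + 4)) with hf1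
  set f2 : ℕ → ℕ × ℕ × ℕ := fun i => (4 * i + 3, 24 * j + 6 - (8 * i + 4), 4 * i + 1) with hf2
  set f3 : ℕ → ℕ × ℕ × ℕ := fun i => (24 * j + 6 - (8 * i + 4), 4 * i + 1, 4 * i + 3) with hf3
  set T := typical (4 * j + 1) 0 with hT
  set R1 := (Finset.range j).image f1 with hR1
  set R2 := (Finset.range j).image f2 with hR2
  set R3 := (Finset.range j).image f3 with hR3
  refine gamma_le (T ∪ (R1 ∪ (R2 ∪ R3))) ⟨?_, ?_⟩ ?_
  · intro p hp
    rw [mem_board]
    rcases Finset.mem_union.1 hp with hp | hp
    · have := typical_mem hp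
      omega
    rcases Finset.mem_union.1 hp with hp | hp
    · obtain ⟨i, hi, rfl⟩ := Finset.mem_image.1 hp
      rw [Finset.mem_range] at hi
      simp only [hf1]
      omega
    rcases Finset.mem_union.1 hp with hp | hp
    · obtain ⟨i, hi, rfl⟩ := Finset.mem_image.1 hp
      rw [Finset.mem_range] at hi
      simp only [hf2]
      omega
    · obtain ⟨i, hi, rfl⟩ := Finset.mem_image.1 hp
      rw [Finset.mem_range] at hi
      simp only [hf3]
      omega
  · rintro ⟨x, y, z⟩ hp
    rw [mem_board] at hp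
    simp only at hp ⊢
    -- even coordinates below `16 j + 6`
    by_cases hx : x % 2 = 0 ∧ x < 4 * (4 * j + 1) + 2
    · obtain ⟨q, hq, hq'⟩ := typical_fst (e := 0) hx.1 hx.2
      exact ⟨q, Finset.mem_union_left _ hq, Or.inl hq'⟩
    by_cases hy : y % 2 = 0 ∧ y < 4 * (4 * j + 1) + 2
    · obtain ⟨q, hq, hq'⟩ := typical_snd (e := 0) hy.1 hy.2
      exact ⟨q, Finset.mem_union_left _ hq, Or.inr (Or.inl hq')⟩
    by_cases hz : z % 2 = 0 ∧ z < 4 * (4 * j + 1) + 2
    · obtain ⟨q, hq, hq'⟩ := typical_trd (e := 0) (Nat.zero_le z) hz.1 hz.2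
      exact ⟨q, Finset.mem_union_left _ hq, Or.inr (Or.inr hq')⟩
    -- odd coordinates below `4 j`
    by_cases hx2 : x % 2 = 1 ∧ x < 4 * j
    · by_cases hx4 : x % 4 = 1
      · refine ⟨f1 (x / 4), Finset.mem_union_right _ (Finset.mem_union_left _
          (Finset.mem_image_of_mem _ (Finset.mem_range.2 (by omega)))), Or.inl ?_⟩
        simp only [hf1]
        omega
      · refine ⟨f2 (x / 4), Finset.mem_union_right _ (Finset.mem_union_right _
          (Finset.mem_union_left _
          (Finset.mem_image_of_mem _ (Finset.mem_range.2 (by omega))))), Or.inl ?_⟩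
        simp only [hf2]
        omega
    by_cases hy2 : y % 2 = 1 ∧ y < 4 * j
    · by_cases hy4 : y % 4 = 1
      · refine ⟨f3 (y / 4), Finset.mem_union_right _ (Finset.mem_union_right _
          (Finset.mem_union_right _
          (Finset.mem_image_of_mem _ (Finset.mem_range.2 (by omega))))), Or.inr (Or.inl ?_)⟩
        simp only [hf3]
        omega
      · refine ⟨f1 (y / 4), Finset.mem_union_right _ (Finset.mem_union_left _
          (Finset.mem_image_of_mem _ (Finset.mem_range.2 (by omega)))), Or.inr (Or.inl ?_)⟩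
        simp only [hf1]
        omega
    by_cases hz2 : z % 2 = 1 ∧ z < 4 * j
    · by_cases hz4 : z % 4 = 1
      · refine ⟨f2 (z / 4), Finset.mem_union_right _ (Finset.mem_union_right _
          (Finset.mem_union_left _
          (Finset.mem_image_of_mem _ (Finset.mem_range.2 (by omega))))), Or.inr (Or.inr ?_)⟩
        simp only [hf2]
        omega
      · refine ⟨f3 (z / 4), Finset.mem_union_right _ (Finset.mem_union_right _
          (Finset.mem_union_right _
          (Finset.mem_image_of_mem _ (Finset.mem_range.2 (by omega))))), Or.inr (Or.inr ?_)⟩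
        simp only [hf3]
        omega
    exfalso
    omega
  · have hT' := typical_card (4 * j + 1) 0
    have h1 := Finset.card_image_le (s := Finset.range j) (f := f1)
    have h2 := Finset.card_image_le (s := Finset.range j) (f := f2)
    have h3 := Finset.card_image_le (s := Finset.range j) (f := f3)
    rw [Finset.card_range] at h1 h2 h3
    have u1 := Finset.card_union_le T (R1 ∪ (R2 ∪ R3))
    have u2 := Finset.card_union_le R1 (R2 ∪ R3)
    have u3 := Finset.card_union_le R2 R3
    rw [← hT] at hT'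
    rw [← hR1] at h1
    rw [← hR2] at h2
    rw [← hR3] at h3
    omega

/-- The construction for `n = 24 j + 20`. -/
theorem gamma_even (j : ℕ) : gamma (24 * j + 20) ≤ 11 * j + 9 := by
  classical
  set f1 : ℕ → ℕ × ℕ × ℕ := fun i => (4 * i + 3, 4 * i + 3, 24 * j + 19 - (8 * i + 6)) with hf1
  set f2 : ℕ → ℕ × ℕ × ℕ := fun i => (4 * i + 1, 24 * j + 19 - (8 * i + 1), 4 * i) with hf2
  set f3 : ℕ → ℕ × ℕ × ℕ := fun i => (24 * j + 19 - (8 * i + 3), 4 * i + 1, 4 * i + 2) with hf3
  set T := typical (4 * j + 3) 1 with hT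
  set R1 := (Finset.range j).image f1 with hR1
  set R2 := (Finset.range (j + 1)).image f2 with hR2
  set R3 := (Finset.range (j + 1)).image f3 with hR3
  refine gamma_le (T ∪ (R1 ∪ (R2 ∪ R3))) ⟨?_, ?_⟩ ?_
  · intro p hp
    rw [mem_board]
    rcases Finset.mem_union.1 hp with hp | hp
    · have := typical_mem hp
      omega
    rcases Finset.mem_union.1 hp with hp | hp
    · obtain ⟨i, hi, rfl⟩ := Finset.mem_image.1 hp
      rw [Finset.mem_range] at hi
      simp only [hf1]
      omega
    rcases Finset.mem_union.1 hp with hp | hp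
    · obtain ⟨i, hi, rfl⟩ := Finset.mem_image.1 hp
      rw [Finset.mem_range] at hi
      simp only [hf2]
      omega
    · obtain ⟨i, hi, rfl⟩ := Finset.mem_image.1 hp
      rw [Finset.mem_range] at hi
      simp only [hf3]
      omega
  · rintro ⟨x, y, z⟩ hp
    rw [mem_board] at hp
    simp only at hp ⊢
    by_cases hx : x % 2 = 0 ∧ x < 4 * (4 * j + 3) + 2
    · obtain ⟨q, hq, hq'⟩ := typical_fst (e := 1) hx.1 hx.2
      exact ⟨q, Finset.mem_union_left _ hq, Or.inl hq'⟩
    by_cases hy : y % 2 = 0 ∧ y < 4 * (4 * j + 3) + 2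
    · obtain ⟨q, hq, hq'⟩ := typical_snd (e := 1) hy.1 hy.2
      exact ⟨q, Finset.mem_union_left _ hq, Or.inr (Or.inl hq')⟩
    by_cases hz : z % 2 = 1 ∧ z < 4 * (4 * j + 3) + 2 + 1
    · obtain ⟨q, hq, hq'⟩ := typical_trd (t := 4 * j + 3) (e := 1) (x := z) (by omega) (by omega)
        hz.2
      exact ⟨q, Finset.mem_union_left _ hq, Or.inr (Or.inr hq')⟩
    by_cases hx2 : x % 2 = 1 ∧ x < 4 * j + 3
    · by_cases hx4 : x % 4 = 1
      · refine ⟨f2 (x / 4), Finset.mem_union_right _ (Finset.mem_union_right _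
          (Finset.mem_union_left _
          (Finset.mem_image_of_mem _ (Finset.mem_range.2 (by omega))))), Or.inl ?_⟩
        simp only [hf2]
        omega
      · refine ⟨f1 (x / 4), Finset.mem_union_right _ (Finset.mem_union_left _
          (Finset.mem_image_of_mem _ (Finset.mem_range.2 (by omega)))), Or.inl ?_⟩
        simp only [hf1]
        omega
    by_cases hy2 : y % 2 = 1 ∧ y < 4 * j + 3
    · by_cases hy4 : y % 4 = 1
      · refine ⟨f3 (y / 4), Finset.mem_union_right _ (Finset.mem_union_right _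
          (Finset.mem_union_right _
          (Finset.mem_image_of_mem _ (Finset.mem_range.2 (by omega))))), Or.inr (Or.inl ?_)⟩
        simp only [hf3]
        omega
      · refine ⟨f1 (y / 4), Finset.mem_union_right _ (Finset.mem_union_left _
          (Finset.mem_image_of_mem _ (Finset.mem_range.2 (by omega)))), Or.inr (Or.inl ?_)⟩
        simp only [hf1]
        omega
    by_cases hz2 : z % 2 = 0 ∧ z < 4 * j + 4
    · by_cases hz4 : z % 4 = 0
      · refine ⟨f2 (z / 4), Finset.mem_union_right _ (Finset.mem_union_right _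
          (Finset.mem_union_left _
          (Finset.mem_image_of_mem _ (Finset.mem_range.2 (by omega))))), Or.inr (Or.inr ?_)⟩
        simp only [hf2]
        omega
      · refine ⟨f3 (z / 4), Finset.mem_union_right _ (Finset.mem_union_right _
          (Finset.mem_union_right _
          (Finset.mem_image_of_mem _ (Finset.mem_range.2 (by omega))))), Or.inr (Or.inr ?_)⟩
        simp only [hf3]
        omega
    exfalso
    omega
  · have hT' := typical_card (4 * j + 3) 1
    have h1 := Finset.card_image_le (s := Finset.range j) (f := f1)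
    have h2 := Finset.card_image_le (s := Finset.range (j + 1)) (f := f2)
    have h3 := Finset.card_image_le (s := Finset.range (j + 1)) (f := f3)
    rw [Finset.card_range] at h1 h2 h3
    have u1 := Finset.card_union_le T (R1 ∪ (R2 ∪ R3))
    have u2 := Finset.card_union_le R1 (R2 ∪ R3)
    have u3 := Finset.card_union_le R2 R3
    rw [← hT] at hT'
    rw [← hR1] at h1
    rw [← hR2] at h2
    rw [← hR3] at h3
    omega

theorem gamma_one : gamma 1 ≤ 1 := by
  refine gamma_le {(0, 0, 0)} ⟨?_, ?_⟩ (by simp)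
  · intro p hp
    rw [Finset.mem_singleton] at hp
    subst hp
    exact mem_board.2 rfl
  · intro p hp
    rw [mem_board] at hp
    exact ⟨_, Finset.mem_singleton_self _, Or.inl (by simp only; omega)⟩

theorem gamma_two : gamma 2 ≤ 1 := by
  refine gamma_le {(1, 0, 0)} ⟨?_, ?_⟩ (by simp)
  · intro p hp
    rw [Finset.mem_singleton] at hp
    subst hp
    exact mem_board.2 rfl
  · intro p hp
    rw [mem_board] at hp
    by_cases h : p.2.1 = 0
    · exact ⟨_, Finset.mem_singleton_self _, Or.inr (Or.inl h)⟩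
    · exact ⟨_, Finset.mem_singleton_self _, Or.inr (Or.inr (by simp only; omega))⟩

/-- **Upper bound.** For every `n ≥ 1` the triangular board with `n` rows can be covered by
`⌊(11 n + 18) / 24⌋ = ⌈(11 n - 5) / 24⌉` rooks. -/
theorem upper_bound : ∀ n : ℕ, 1 ≤ n → gamma n ≤ (11 * n + 18) / 24 := by
  intro n
  induction n using Nat.strong_induction_on with
  | _ n ih =>
    intro hn
    by_cases h1 : n = 1
    · subst h1
      exact gamma_one
    by_cases h2 : n = 2
    · subst h2
      exact gamma_two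
    by_cases h7 : n % 24 = 7
    · have h := gamma_odd (n / 24)
      have e : 24 * (n / 24) + 7 = n := by omega
      rw [e] at h
      omega
    by_cases h20 : n % 24 = 20
    · have h := gamma_even (n / 24)
      have e : 24 * (n / 24) + 20 = n := by omega
      rw [e] at h
      omega
    have h := ih (n - 2) (by omega) (by omega)
    have h' := gamma_step (n - 2)
    have e : n - 2 + 2 = n := by omega
    rw [e] at h'
    refine le_trans h' (le_trans (Nat.add_le_add_right h 1) ?_)
    obtain ⟨q, r, hr, rfl⟩ : ∃ q r : ℕ, r < 24 ∧ n = 24 * q + r :=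
      ⟨n / 24, n % 24, Nat.mod_lt _ (by norm_num), by omega⟩
    interval_cases r <;> omega

/-- **Lower bound.** `24 γ(n) ≥ 11 n - 5` for every `n ≥ 1`. -/
theorem lower_bound (n : ℕ) (hn : 1 ≤ n) : 11 * n ≤ 24 * gamma n + 5 := by
  obtain ⟨S, ⟨hS1, hS2⟩, hc⟩ := exists_min n
  have h := Pool.Agent.LibA338c1f.bound_of_main
    (Pool.Agent.LibA338c1f.main_of_far Pool.Agent.LibA338c1g.far) S
    ![fun q => q.1, fun q => q.2.1, fun q => q.2.2] (n - 1)
    (fun q hq => by
      have := mem_board.1 (hS1 hq)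
      rw [Fin.sum_univ_three]
      simp only [Matrix.cons_val_zero, Matrix.cons_val_one, Matrix.cons_val]
      omega)
    (fun v hv => by
      rw [Fin.sum_univ_three] at hv
      obtain ⟨q, hq, h1 | h1 | h1⟩ := hS2 (v 0, v 1, v 2) (mem_board.2 (by simp only; omega))
      · exact ⟨q, hq, 0, h1⟩
      · exact ⟨q, hq, 1, h1⟩
      · exact ⟨q, hq, 2, h1⟩)
  rw [hc] at h
  omega

/-- **The domination number of the triangular board.** For every `n ≥ 1`,
`γ(n) = ⌊(11 n + 18) / 24⌋`. -/
theorem result : ∀ n : ℕ, 1 ≤ n → gamma n = (11 * n + 18) / 24 := by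
  intro n hn
  have h1 := upper_bound n hn
  have h2 := lower_bound n hn
  omega

end Pool.Agent.Results.MP_a338c1_co.ExactValue
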